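import Mathlib
import Pool.Agent.J4H98.GK.Jobs

/-!
# The Carlitz action (`S_act`)
-/

set_option autoImplicit false
set_option linter.unusedSectionVars false

open Polynomial

namespace Pool.Agent.J4H92.GK

open Pool.Agent.J4H98.GK

section

variable {Fq : Type*} [Field Fq] [Fintype Fq] {R : Type*} [CommRing R] [Algebra Fq[X] R]

section lin

variable [Algebra Fq R] [IsScalarTower Fq Fq[X] R]

/-- The Carlitz operator as a linear map. -/
noncomputable def PhiL (Fq R : Type*) [Field Fq] [Fintype Fq] [CommRing R] [Algebra Fq[X] R]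
    [Algebra Fq R] : Module.End Fq R :=
  LinearMap.mulLeft Fq (algebraMap Fq[X] R X) + (FiniteField.frobeniusAlgHom Fq R).toLinearMap

theorem PhiL_apply (y : R) : PhiL Fq R y = phi Fq y := rfl

theorem PhiL_pow (n : ℕ) (y : R) : (PhiL Fq R ^ n) y = (phi Fq)^[n] y := by
  rw [Module.End.pow_apply]
  rfl

theorem carl_eq_aeval (a : Fq[X]) (y : R) : carl a y = aeval (PhiL Fq R) a y := by
  rw [carl, aeval_def, eval₂_eq_sum, Polynomial.sum, Polynomial.sum, LinearMap.sum_apply]
  refine Finset.sum_congr rfl fun i _ => ?_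
  rw [Module.End.mul_apply, PhiL_pow, Module.algebraMap_end_apply, Algebra.smul_def,
    IsScalarTower.algebraMap_apply Fq Fq[X] R]
  rfl

end lin

theorem carl_add (a b : Fq[X]) (y : R) : carl (a + b) y = carl a y + carl b y := by
  let _ : Algebra Fq R := ((algebraMap Fq[X] R).comp C).toAlgebra
  have : IsScalarTower Fq Fq[X] R := IsScalarTower.of_algebraMap_eq' rfl
  rw [carl_eq_aeval, carl_eq_aeval, carl_eq_aeval, map_add, LinearMap.add_apply]

theorem carl_mul (a b : Fq[X]) (y : R) : carl (a * b) y = carl a (carl b y) := by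
  let _ : Algebra Fq R := ((algebraMap Fq[X] R).comp C).toAlgebra
  have : IsScalarTower Fq Fq[X] R := IsScalarTower.of_algebraMap_eq' rfl
  rw [carl_eq_aeval, carl_eq_aeval, carl_eq_aeval, map_mul, Module.End.mul_apply]

theorem carl_add_right (a : Fq[X]) (x y : R) : carl a (x + y) = carl a x + carl a y := by
  let _ : Algebra Fq R := ((algebraMap Fq[X] R).comp C).toAlgebra
  have : IsScalarTower Fq Fq[X] R := IsScalarTower.of_algebraMap_eq' rfl
  rw [carl_eq_aeval, carl_eq_aeval, carl_eq_aeval, map_add]

theorem carl_C (c : Fq) (y : R) : carl (C c) y = algebraMap Fq[X] R (C c) * y := by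
  let _ : Algebra Fq R := ((algebraMap Fq[X] R).comp C).toAlgebra
  have : IsScalarTower Fq Fq[X] R := IsScalarTower.of_algebraMap_eq' rfl
  rw [carl_eq_aeval, aeval_C, Module.algebraMap_end_apply, Algebra.smul_def]
  rfl

theorem carl_X (y : R) :
    carl (X : Fq[X]) y = algebraMap Fq[X] R X * y + y ^ Fintype.card Fq := by
  let _ : Algebra Fq R := ((algebraMap Fq[X] R).comp C).toAlgebra
  have : IsScalarTower Fq Fq[X] R := IsScalarTower.of_algebraMap_eq' rfl
  rw [carl_eq_aeval, aeval_X]
  rfl

theorem carl_zero (y : R) : carl (0 : Fq[X]) y = 0 := by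
  have := carl_C (0 : Fq) y
  rw [C_0, map_zero, zero_mul] at this
  exact this

theorem carl_one (y : R) : carl (1 : Fq[X]) y = y := by
  have := carl_C (1 : Fq) y
  rw [C_1, map_one, one_mul] at this
  exact this

theorem carl_zero_right (a : Fq[X]) : carl a (0 : R) = 0 := by
  have := carl_add_right a (0 : R) 0
  rw [add_zero] at this
  exact (left_eq_add.1 this)

end

/-- `S_act`. -/
theorem t_act : S_act := by
  intro Fq _ _ R _ _
  exact ⟨carl_add, carl_mul, carl_add_right, carl_C, carl_X⟩

end Pool.Agent.J4H92.GK
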