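import Mathlib
import Pool.Agent.J4H98.GK.Jobs
import Pool.Agent.J4H92.GK.Act

/-!
# Coefficients of the Carlitz polynomials (`S_coef`)
-/

set_option autoImplicit false
set_option linter.unusedSectionVars false

open Polynomial

namespace Pool.Agent.J4H92.GK

open Pool.Agent.J4H98.GK

section

variable (Fq : Type*) [Field Fq] [Fintype Fq]

/-- The coefficients of `C_{T^n}`. -/
noncomputable def gam : ℕ → ℕ → Fq[X]
  | 0, 0 => 1
  | 0, _ + 1 => 0
  | n + 1, 0 => X * gam n 0
  | n + 1, i + 1 => X * gam n (i + 1) + (gam n i) ^ Fintype.card Fq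

theorem gam_zero (n : ℕ) : gam Fq n 0 = X ^ n := by
  induction n with
  | zero => rw [gam, pow_zero]
  | succ n ih => rw [gam, ih, pow_succ']

theorem gam_gt (n : ℕ) : ∀ i, n < i → gam Fq n i = 0 := by
  induction n with
  | zero =>
    intro i hi
    obtain ⟨j, rfl⟩ : ∃ j, i = j + 1 := ⟨i - 1, by omega⟩
    rw [gam]
  | succ n ih =>
    intro i hi
    obtain ⟨j, rfl⟩ : ∃ j, i = j + 1 := ⟨i - 1, by omega⟩
    rw [gam, ih _ (by omega), ih _ (by omega), mul_zero, zero_add,
      zero_pow Fintype.card_ne_zero]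

theorem gam_diag (n : ℕ) : gam Fq n n = 1 := by
  induction n with
  | zero => rw [gam]
  | succ n ih => rw [gam, gam_gt Fq n (n + 1) (by omega), ih, mul_zero, zero_add, one_pow]

theorem add_pow_q {R : Type*} [CommRing R] [Algebra Fq R] (x y : R) :
    (x + y) ^ Fintype.card Fq = x ^ Fintype.card Fq + y ^ Fintype.card Fq :=
  map_add (FiniteField.frobeniusAlgHom Fq R) x y

theorem sub_pow_q {R : Type*} [CommRing R] [Algebra Fq R] (x y : R) :
    (x - y) ^ Fintype.card Fq = x ^ Fintype.card Fq - y ^ Fintype.card Fq :=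
  map_sub (FiniteField.frobeniusAlgHom Fq R) x y

theorem C_pow_q (c : Fq) : (C c : Fq[X]) ^ Fintype.card Fq = C c := by
  rw [← C_pow, FiniteField.pow_card]

theorem gam_rel (n : ℕ) : ∀ i, gam Fq n (i + 1) * (X ^ Fintype.card Fq ^ (i + 1) - X) =
    (gam Fq n i) ^ Fintype.card Fq - gam Fq n i := by
  induction n with
  | zero =>
    intro i
    cases i with
    | zero => rw [gam, gam, zero_mul, one_pow, sub_self]
    | succ i => rw [gam, gam, zero_mul, zero_pow Fintype.card_ne_zero, sub_self]
  | succ n ih =>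
    intro i
    cases i with
    | zero =>
      have h0 := ih 0
      rw [gam, gam]
      rw [zero_add, pow_one] at h0 ⊢
      rw [add_mul, mul_assoc, h0, mul_pow]
      ring
    | succ i =>
      have h0 := ih (i + 1)
      have h1 := ih i
      have h2 : (gam Fq n (i + 1)) ^ Fintype.card Fq *
          (X ^ Fintype.card Fq ^ (i + 2) - X ^ Fintype.card Fq) =
          ((gam Fq n i) ^ Fintype.card Fq) ^ Fintype.card Fq - (gam Fq n i) ^ Fintype.card Fq := by
        have h3 := congrArg (· ^ Fintype.card Fq) h1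
        simp only [mul_pow, sub_pow_q Fq] at h3
        rw [← h3, ← pow_mul, ← pow_succ]
      rw [gam, gam]
      rw [show i + 1 + 1 = i + 2 from rfl] at h0 ⊢
      rw [add_mul, mul_assoc, h0, add_pow_q, mul_pow]
      linear_combination h2

theorem phi_iter {R : Type*} [CommRing R] [Algebra Fq[X] R] (y : R) (n : ℕ) :
    ∀ N, n < N → (phi Fq)^[n] y = ∑ i ∈ Finset.range N,
      algebraMap Fq[X] R (gam Fq n i) * y ^ Fintype.card Fq ^ i := by
  let _ : Algebra Fq R := ((algebraMap Fq[X] R).comp C).toAlgebra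
  induction n with
  | zero =>
    intro N hN
    obtain ⟨M, rfl⟩ : ∃ M, N = M + 1 := ⟨N - 1, by omega⟩
    rw [Finset.sum_range_succ', Function.iterate_zero, id, gam, map_one, pow_zero, pow_one,
      one_mul]
    rw [Finset.sum_eq_zero, zero_add]
    intro i _
    rw [gam, map_zero, zero_mul]
  | succ n ih =>
    intro N hN
    obtain ⟨M, rfl⟩ : ∃ M, N = M + 1 := ⟨N - 1, by omega⟩
    rw [Function.iterate_succ', Function.comp_apply]
    have h1 := ih M (by omega)
    have h2 := ih (M + 1) (by omega)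
    have h3 : phi Fq ((phi Fq)^[n] y) = algebraMap Fq[X] R X * (phi Fq)^[n] y +
        ((phi Fq)^[n] y) ^ Fintype.card Fq := rfl
    have h4 : ((phi Fq)^[n] y) ^ Fintype.card Fq = ∑ i ∈ Finset.range M,
        algebraMap Fq[X] R (gam Fq n i ^ Fintype.card Fq) * y ^ Fintype.card Fq ^ (i + 1) := by
      rw [h1]
      have := map_sum (FiniteField.frobeniusAlgHom Fq R)
        (fun i => algebraMap Fq[X] R (gam Fq n i) * y ^ Fintype.card Fq ^ i) (Finset.range M)
      rw [FiniteField.coe_frobeniusAlgHom] at this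
      simp only at this
      rw [this]
      refine Finset.sum_congr rfl fun i _ => ?_
      rw [mul_pow, map_pow, ← pow_mul, ← pow_succ]
    rw [h3, h4, h2, Finset.sum_range_succ', Finset.sum_range_succ', mul_add, Finset.mul_sum,
      add_right_comm, ← Finset.sum_add_distrib]
    congr 1
    · refine Finset.sum_congr rfl fun i _ => ?_
      rw [gam, map_add, map_mul]
      ring
    · rw [gam, map_mul, mul_assoc]

variable {Fq}

/-- The coefficients of `C_a`. -/
noncomputable def bet (a : Fq[X]) (i : ℕ) : Fq[X] :=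
  ∑ n ∈ Finset.range (a.natDegree + 1), C (a.coeff n) * gam Fq n i

theorem carl_eq_sum {R : Type*} [CommRing R] [Algebra Fq[X] R] (a : Fq[X]) (y : R) :
    carl a y = ∑ i ∈ Finset.range (a.natDegree + 1),
      algebraMap Fq[X] R (bet a i) * y ^ Fintype.card Fq ^ i := by
  rw [carl, Polynomial.sum_over_range' _ _ (a.natDegree + 1) (Nat.lt_succ_self _)]
  · have h1 : ∀ n ∈ Finset.range (a.natDegree + 1),
        algebraMap Fq[X] R (C (a.coeff n)) * (phi Fq)^[n] y =
        ∑ i ∈ Finset.range (a.natDegree + 1), algebraMap Fq[X] R (C (a.coeff n)) *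
          (algebraMap Fq[X] R (gam Fq n i) * y ^ Fintype.card Fq ^ i) := by
      intro n hn
      rw [phi_iter Fq y n (a.natDegree + 1) (Finset.mem_range.1 hn), Finset.mul_sum]
    rw [Finset.sum_congr rfl h1, Finset.sum_comm]
    refine Finset.sum_congr rfl fun i _ => ?_
    rw [bet, map_sum, Finset.sum_mul]
    refine Finset.sum_congr rfl fun n _ => ?_
    rw [map_mul, mul_assoc]
  · intro n
    rw [C_0, map_zero, zero_mul]

theorem bet_rel (a : Fq[X]) (i : ℕ) : bet a (i + 1) * (X ^ Fintype.card Fq ^ (i + 1) - X) =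
    (bet a i) ^ Fintype.card Fq - bet a i := by
  have h1 : (bet a i) ^ Fintype.card Fq = ∑ n ∈ Finset.range (a.natDegree + 1),
      C (a.coeff n) * (gam Fq n i) ^ Fintype.card Fq := by
    have := map_sum (FiniteField.frobeniusAlgHom Fq Fq[X])
      (fun n => C (a.coeff n) * gam Fq n i) (Finset.range (a.natDegree + 1))
    rw [FiniteField.coe_frobeniusAlgHom] at this
    simp only at this
    rw [bet, this]
    refine Finset.sum_congr rfl fun n _ => ?_
    rw [mul_pow, C_pow_q]
  rw [h1, bet, bet, Finset.sum_mul, ← Finset.sum_sub_distrib]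
  refine Finset.sum_congr rfl fun n _ => ?_
  rw [mul_assoc, gam_rel, mul_sub]

theorem bet_zero (a : Fq[X]) : bet a 0 = a := by
  rw [bet]
  conv_rhs => rw [a.as_sum_range_C_mul_X_pow]
  refine Finset.sum_congr rfl fun n _ => ?_
  rw [gam_zero]

theorem bet_natDegree (a : Fq[X]) : bet a a.natDegree = C a.leadingCoeff := by
  rw [bet, Finset.sum_range_succ, gam_diag, mul_one, Finset.sum_eq_zero, zero_add]
  · rfl
  · intro n hn
    rw [gam_gt Fq n _ (Finset.mem_range.1 hn), mul_zero]

theorem dvd_bet {P : Fq[X]} (hP : Irreducible P) : ∀ i < P.natDegree, P ∣ bet P i := by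
  intro i
  induction i with
  | zero =>
    intro _
    rw [bet_zero]
  | succ i ih =>
    intro hi
    have h1 := ih (by omega)
    have h2 : P ∣ bet P (i + 1) * (X ^ Fintype.card Fq ^ (i + 1) - X) := by
      rw [bet_rel]
      exact dvd_sub (dvd_pow h1 Fintype.card_ne_zero) h1
    rcases hP.prime.dvd_or_dvd h2 with h | h
    · exact h
    · exfalso
      rw [← Nat.card_eq_fintype_card] at h
      have h3 := hP.natDegree_dvd_of_dvd_X_pow_card_pow_sub_X h
      have := Nat.le_of_dvd (by omega) h3
      omega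

end

/-- `S_coef`. -/
theorem t_coef : S_coef := by
  intro Fq _ _ P hm hP
  refine ⟨bet P, bet_zero P, ?_, dvd_bet hP, fun R _ _ y => carl_eq_sum P y⟩
  rw [bet_natDegree, hm.leadingCoeff, C_1]

end Pool.Agent.J4H92.GK
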