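import Mathlib
import Pool.Agent.J4H98.GK.Jobs
import Pool.Agent.J4H92.GK.Coef

/-!
# Arithmetic of the Carlitz cyclotomic fields (`S_cyc`)
-/

set_option autoImplicit false
set_option linter.unusedSectionVars false

open Polynomial

namespace Pool.Agent.J4H92.GK

open Pool.Agent.J4H98.GK

section pol

variable {Fq : Type} [Field Fq] [Fintype Fq]

/-- `C_P(Y)`. -/
noncomputable def gP (P : Fq[X]) : Fq[X][X] :=
  ∑ i ∈ Finset.range (P.natDegree + 1), C (bet P i) * X ^ Fintype.card Fq ^ i

/-- `C_P(Y) / Y`. -/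
noncomputable def fP (P : Fq[X]) : Fq[X][X] :=
  ∑ i ∈ Finset.range (P.natDegree + 1), C (bet P i) * X ^ (Fintype.card Fq ^ i - 1)

theorem q_gt : 1 < Fintype.card Fq := Fintype.one_lt_card

theorem qpow_pos (i : ℕ) : 1 ≤ Fintype.card Fq ^ i := Nat.one_le_pow _ _ (by have := q_gt (Fq := Fq); omega)

theorem gP_eq (P : Fq[X]) : gP P = X * fP P := by
  rw [gP, fP, Finset.mul_sum]
  refine Finset.sum_congr rfl fun i _ => ?_
  rw [mul_left_comm, ← pow_succ', Nat.sub_add_cancel (qpow_pos i)]

theorem aeval_gP {R : Type} [CommRing R] [Algebra Fq[X] R] (P : Fq[X]) (y : R) :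
    aeval y (gP P) = carl P y := by
  rw [gP, carl_eq_sum, map_sum]
  refine Finset.sum_congr rfl fun i _ => ?_
  rw [map_mul, aeval_C, map_pow, aeval_X]

theorem fP_eq {P : Fq[X]} (hm : P.Monic) : fP P = X ^ (Fintype.card Fq ^ P.natDegree - 1) +
    ∑ i ∈ Finset.range P.natDegree, C (bet P i) * X ^ (Fintype.card Fq ^ i - 1) := by
  rw [fP, Finset.sum_range_succ, bet_natDegree, hm.leadingCoeff, C_1, C_1, one_mul, add_comm]

theorem low_degree (P : Fq[X]) (_hd : 1 ≤ P.natDegree) :
    (∑ i ∈ Finset.range P.natDegree, C (bet P i) * X ^ (Fintype.card Fq ^ i - 1)).degree <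
      ((Fintype.card Fq ^ P.natDegree - 1 : ℕ) : WithBot ℕ) := by
  refine lt_of_le_of_lt (Polynomial.degree_sum_le _ _) ?_
  rw [Finset.sup_lt_iff]
  · intro i hi
    rw [Finset.mem_range] at hi
    refine lt_of_le_of_lt (Polynomial.degree_C_mul_X_pow_le _ _) ?_
    have h1 : Fintype.card Fq ^ i < Fintype.card Fq ^ P.natDegree :=
      Nat.pow_lt_pow_right (q_gt (Fq := Fq)) hi
    have h2 := qpow_pos (Fq := Fq) i
    exact_mod_cast (by omega : Fintype.card Fq ^ i - 1 < Fintype.card Fq ^ P.natDegree - 1)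
  · exact WithBot.bot_lt_coe _

theorem fP_monic {P : Fq[X]} (hm : P.Monic) (hd : 1 ≤ P.natDegree) : (fP P).Monic := by
  rw [fP_eq hm]
  exact monic_X_pow_add (low_degree P hd)

theorem fP_natDegree {P : Fq[X]} (hm : P.Monic) (hd : 1 ≤ P.natDegree) :
    (fP P).natDegree = Fintype.card Fq ^ P.natDegree - 1 := by
  rw [fP_eq hm, natDegree_add_eq_left_of_degree_lt, natDegree_X_pow]
  rw [degree_X_pow]
  exact low_degree P hd

theorem fP_coeff {P : Fq[X]} (hm : P.Monic) {n : ℕ}
    (hn : n < Fintype.card Fq ^ P.natDegree - 1) : (fP P).coeff n =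
      ∑ i ∈ Finset.range P.natDegree, if n = Fintype.card Fq ^ i - 1 then bet P i else 0 := by
  rw [fP_eq hm, coeff_add, coeff_X_pow, if_neg (by omega), zero_add, finsetSum_coeff]
  refine Finset.sum_congr rfl fun i _ => ?_
  rw [coeff_C_mul_X_pow]

theorem fP_eis {P : Fq[X]} (hm : P.Monic) (hP : Irreducible P) :
    (fP P).IsEisensteinAt (Ideal.span {P}) := by
  have hd : 1 ≤ P.natDegree := hP.natDegree_pos
  have hq : 1 < Fintype.card Fq ^ P.natDegree :=
    Nat.one_lt_pow (by omega) (q_gt (Fq := Fq))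
  refine ⟨?_, ?_, ?_⟩
  · rw [(fP_monic hm hd).leadingCoeff, Ideal.mem_span_singleton]
    intro h
    exact hP.not_isUnit (isUnit_of_dvd_one h)
  · intro n hn
    rw [fP_natDegree hm hd] at hn
    rw [fP_coeff hm hn]
    refine Ideal.sum_mem _ fun i hi => ?_
    split_ifs
    · exact Ideal.mem_span_singleton.2 (dvd_bet hP i (Finset.mem_range.1 hi))
    · exact Ideal.zero_mem _
  · rw [fP_coeff hm (by omega), Ideal.span_singleton_pow, Ideal.mem_span_singleton,
      Finset.sum_eq_single 0]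
    · rw [if_pos (by simp), bet_zero]
      intro h
      have h1 : P * P ∣ P * 1 := by rwa [mul_one, ← sq]
      have h2 := (mul_dvd_mul_iff_left hP.ne_zero).1 h1
      exact hP.not_isUnit (isUnit_of_dvd_one h2)
    · intro i _ hi
      rw [if_neg]
      have h1 : 1 < Fintype.card Fq ^ i := Nat.one_lt_pow hi (q_gt (Fq := Fq))
      omega
    · intro h
      exact absurd (Finset.mem_range.2 (by omega)) h

theorem fP_irr {P : Fq[X]} (hm : P.Monic) (hP : Irreducible P) : Irreducible (fP P) := by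
  have hd : 1 ≤ P.natDegree := hP.natDegree_pos
  have hq : 1 < Fintype.card Fq ^ P.natDegree :=
    Nat.one_lt_pow (by omega) (q_gt (Fq := Fq))
  refine (fP_eis hm hP).irreducible ?_ (fP_monic hm hd).isPrimitive ?_
  · rw [Ideal.span_singleton_prime hP.ne_zero]
    exact hP.prime
  · rw [fP_natDegree hm hd]
    omega

theorem gP_natDegree {P : Fq[X]} (hm : P.Monic) (hd : 1 ≤ P.natDegree) :
    (gP P).natDegree = Fintype.card Fq ^ P.natDegree := by
  rw [gP_eq, natDegree_X_mul (fP_monic hm hd).ne_zero, fP_natDegree hm hd,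
    Nat.sub_add_cancel (qpow_pos _)]

theorem gP_monic {P : Fq[X]} (hm : P.Monic) (hd : 1 ≤ P.natDegree) : (gP P).Monic := by
  rw [gP_eq]
  exact monic_X.mul (fP_monic hm hd)

theorem gP_derivative (P : Fq[X]) : derivative (gP P) = C P := by
  rw [gP, derivative_sum, Finset.sum_range_succ', Finset.sum_eq_zero, zero_add, pow_zero, pow_one,
    derivative_C_mul, derivative_X, mul_one, bet_zero]
  intro i _
  rw [derivative_C_mul_X_pow]
  have h1 : ((Fintype.card Fq ^ (i + 1) : ℕ) : Fq[X]) = 0 := by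
    rw [Nat.cast_pow, ← C_eq_natCast, FiniteField.cast_card_eq_zero, C_0,
      zero_pow (Nat.succ_ne_zero i)]
  rw [h1, mul_zero, C_0, zero_mul]

theorem fP_derivative {R : Type} [CommRing R] [Algebra Fq[X] R] (P : Fq[X]) (y : R)
    (hy : aeval y (fP P) = 0) : y * aeval y (derivative (fP P)) = algebraMap Fq[X] R P := by
  have h := congrArg (aeval y) (gP_derivative P)
  rw [gP_eq, derivative_mul, derivative_X, one_mul, map_add, hy, zero_add, map_mul, aeval_X,
    aeval_C] at h
  exact h

end pol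

section field

variable {Fq : Type} [Field Fq] [Fintype Fq] {P : Fq[X]} (hm : P.Monic) (hP : Irreducible P)
  {F : Type} [Field F] [Algebra Fq[X] F] [Algebra (RatFunc Fq) F]
    [IsScalarTower Fq[X] (RatFunc Fq) F] {l : F} (hl : l ≠ 0) (hcl : carl P l = 0)
    (hgen : IntermediateField.adjoin (RatFunc Fq) {l} = ⊤)

include hl hcl in
theorem aeval_fP : aeval l (fP P) = 0 := by
  have h := aeval_gP P l
  rw [gP_eq, map_mul, aeval_X, hcl] at h
  exact (mul_eq_zero.1 h).resolve_left hl

include hm hP hl hcl in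
theorem isIntegral_l : IsIntegral Fq[X] l :=
  ⟨fP P, fP_monic hm hP.natDegree_pos, aeval_fP hl hcl⟩

include hm hP hl hcl in
theorem minpoly_K : minpoly (RatFunc Fq) l = (fP P).map (algebraMap Fq[X] (RatFunc Fq)) := by
  symm
  apply minpoly.eq_of_irreducible_of_monic
  · exact ((fP_monic hm hP.natDegree_pos).irreducible_iff_irreducible_map_fraction_map).1
      (fP_irr hm hP)
  · rw [aeval_map_algebraMap]
    exact aeval_fP hl hcl
  · exact (fP_monic hm hP.natDegree_pos).map _

include hm hP hl hcl in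
theorem minpoly_A : minpoly Fq[X] l = fP P := by
  have h1 := minpoly.isIntegrallyClosed_eq_field_fractions' (RatFunc Fq)
    (isIntegral_l hm hP hl hcl)
  rw [minpoly_K hm hP hl hcl] at h1
  exact (map_injective _ (IsFractionRing.injective Fq[X] (RatFunc Fq)) h1).symm

include hm hP hl hcl in
theorem isIntegral_K : IsIntegral (RatFunc Fq) l :=
  (isIntegral_l hm hP hl hcl).tower_top

include hm hP hl hcl hgen in
theorem adjoin_top : Algebra.adjoin (RatFunc Fq) {l} = ⊤ := by
  rw [← IntermediateField.adjoin_simple_toSubalgebra_of_isAlgebraic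
    (isIntegral_K hm hP hl hcl).isAlgebraic, hgen, IntermediateField.top_toSubalgebra]

include hm hP hl hcl hgen in
theorem finDim : FiniteDimensional (RatFunc Fq) F := by
  have h1 := IntermediateField.adjoin.finiteDimensional (isIntegral_K hm hP hl hcl)
  rw [hgen] at h1
  exact Module.Finite.equiv (IntermediateField.topEquiv (F := RatFunc Fq) (E := F)).toLinearEquiv

include hP hl hcl in
theorem carl_ne_zero {a : Fq[X]} (ha : ¬ P ∣ a) : carl a l ≠ 0 := by
  intro h0
  have hcop : IsCoprime P a := (hP.coprime_iff_not_dvd).2 ha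
  obtain ⟨u, v, huv⟩ := hcop
  apply hl
  rw [← carl_one (Fq := Fq) l, ← huv, carl_add, carl_mul, carl_mul, hcl, h0, carl_zero_right,
    carl_zero_right, add_zero]

include hcl in
theorem carl_root (a : Fq[X]) : carl P (carl a l) = 0 := by
  rw [← carl_mul, mul_comm, carl_mul, hcl, carl_zero_right]

include hm hP hl hcl in
theorem gP_splits : ((gP P).map (algebraMap Fq[X] F)).Splits := by
  classical
  have hd : 1 ≤ P.natDegree := hP.natDegree_pos
  have hne : (gP P).map (algebraMap Fq[X] F) ≠ 0 := ((gP_monic hm hd).map _).ne_zero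
  have hdeg : ((gP P).map (algebraMap Fq[X] F)).natDegree = Fintype.card Fq ^ P.natDegree := by
    rw [(gP_monic hm hd).natDegree_map, gP_natDegree hm hd]
  -- the roots `carl a l`, `deg a < d`
  let e := Polynomial.degreeLTEquiv Fq P.natDegree
  let r : (Fin P.natDegree → Fq) → F := fun c => carl (e.symm c : Fq[X]) l
  have hr : Function.Injective r := by
    intro c c' h
    by_contra hne
    have h1 : carl ((e.symm c : Fq[X]) - (e.symm c' : Fq[X])) l = 0 := by
      have h2 := carl_add ((e.symm c : Fq[X]) - (e.symm c' : Fq[X])) (e.symm c' : Fq[X]) l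
      rw [sub_add_cancel] at h2
      have h3 : carl (e.symm c : Fq[X]) l = carl (e.symm c' : Fq[X]) l := h
      rw [h3] at h2
      exact right_eq_add.1 h2
    have h2 : ¬ P ∣ ((e.symm c : Fq[X]) - (e.symm c' : Fq[X])) := by
      intro hdvd
      have h3 : ((e.symm c : Fq[X]) - (e.symm c' : Fq[X])) ≠ 0 := by
        rw [sub_ne_zero]
        intro h4
        exact hne (e.symm.injective (Subtype.ext h4))
      have h4 := Polynomial.degree_le_of_dvd hdvd h3
      have h5 : ((e.symm c : Fq[X]) - (e.symm c' : Fq[X])).degree < P.natDegree :=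
        Polynomial.mem_degreeLT.1 (Submodule.sub_mem _ (e.symm c).2 (e.symm c').2)
      rw [degree_eq_natDegree hP.ne_zero] at h4
      exact absurd (lt_of_le_of_lt h4 h5) (lt_irrefl _)
    exact carl_ne_zero hP hl hcl h2 h1
  let Z : Finset F := Finset.univ.image r
  have hZ : Z.card = Fintype.card Fq ^ P.natDegree := by
    rw [Finset.card_image_of_injective _ hr, Finset.card_univ, Fintype.card_fun, Fintype.card_fin]
  have hsub : Z.val ≤ ((gP P).map (algebraMap Fq[X] F)).roots := by
    rw [Finset.val_le_iff_val_subset]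
    intro x hx
    rw [Finset.mem_val, Finset.mem_image] at hx
    obtain ⟨c, _, rfl⟩ := hx
    rw [mem_roots hne, IsRoot, eval_map_algebraMap, aeval_gP]
    exact carl_root hcl _
  rw [splits_iff_card_roots]
  apply le_antisymm (card_roots' _)
  rw [hdeg, ← hZ]
  exact Multiset.card_le_card hsub

include hm hP hl hcl hgen in
theorem galois : IsGalois (RatFunc Fq) F := by
  classical
  have hd : 1 ≤ P.natDegree := hP.natDegree_pos
  let g := (gP P).map (algebraMap Fq[X] (RatFunc Fq))
  have hmap : g.map (algebraMap (RatFunc Fq) F) = (gP P).map (algebraMap Fq[X] F) := by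
    rw [Polynomial.map_map, ← IsScalarTower.algebraMap_eq]
  have hg : g.Separable := by
    rw [Polynomial.separable_def, derivative_map, gP_derivative, map_C]
    have hP0 : algebraMap Fq[X] (RatFunc Fq) P ≠ 0 := by
      rw [Ne, FaithfulSMul.algebraMap_eq_zero_iff]
      exact hP.ne_zero
    refine ⟨0, C (algebraMap Fq[X] (RatFunc Fq) P)⁻¹, ?_⟩
    rw [zero_mul, zero_add, ← C_mul, inv_mul_cancel₀ hP0, C_1]
  have hne : g ≠ 0 := ((gP_monic hm hd).map _).ne_zero
  have hsf : g.IsSplittingField (RatFunc Fq) F := by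
    refine ⟨?_, ?_⟩
    · rw [hmap]
      exact gP_splits hm hP hl hcl
    · rw [eq_top_iff, ← adjoin_top hm hP hl hcl hgen]
      apply Algebra.adjoin_mono
      rw [Set.singleton_subset_iff, mem_rootSet]
      refine ⟨hne, ?_⟩
      rw [aeval_map_algebraMap, aeval_gP]
      exact hcl
  exact IsGalois.of_separable_splitting_field hg

include hm hP hl hcl hgen in
theorem exists_sigma {a : Fq[X]} (ha : ¬ P ∣ a) :
    ∃! σ : F ≃ₐ[RatFunc Fq] F, σ l = carl a l := by
  have := galois hm hP hl hcl hgen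
  have hca := carl_ne_zero hP hl hcl ha
  have h1 : IsConjRoot (RatFunc Fq) l (carl a l) := by
    apply isConjRoot_of_aeval_eq_zero (isIntegral_K hm hP hl hcl)
    rw [minpoly_K hm hP hl hcl, aeval_map_algebraMap]
    exact aeval_fP hca (carl_root hcl a)
  obtain ⟨σ, hσ⟩ := isConjRoot_iff_exists_algEquiv.1 h1.symm
  refine ⟨σ, hσ, ?_⟩
  intro τ hτ
  have h2 : (τ : F →ₐ[RatFunc Fq] F) = (σ : F →ₐ[RatFunc Fq] F) := by
    apply AlgHom.ext_of_adjoin_eq_top (adjoin_top hm hP hl hcl hgen)
    intro x hx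
    rw [Set.mem_singleton_iff] at hx
    subst hx
    change τ x = σ x
    rw [hτ, hσ]
  ext x
  exact congrArg (fun f : F →ₐ[RatFunc Fq] F => f x) h2

/-- `P / l`. -/
theorem deriv_minpoly (hm : P.Monic) (hP : Irreducible P) (hl : l ≠ 0) (hcl : carl P l = 0) :
    aeval l (derivative (minpoly (RatFunc Fq) l)) = algebraMap Fq[X] F P / l := by
  rw [minpoly_K hm hP hl hcl, derivative_map, aeval_map_algebraMap, eq_div_iff hl, mul_comm]
  exact fP_derivative P l (aeval_fP hl hcl)

open Pointwise in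
include hm hP hl hcl hgen in
/-- The dual of `A[l]`. -/
theorem dual_iff (x : F) : (∀ y ∈ Algebra.adjoin Fq[X] {l}, ∃ a : Fq[X],
      Algebra.trace (RatFunc Fq) F (x * y) = algebraMap Fq[X] (RatFunc Fq) a) ↔
    ∃ z ∈ Algebra.adjoin Fq[X] {l}, algebraMap Fq[X] F P * x = l * z := by
  have hfd := finDim hm hP hl hcl hgen
  have hgal := galois hm hP hl hcl hgen
  have hP0 : algebraMap Fq[X] F P ≠ 0 := by
    rw [IsScalarTower.algebraMap_apply Fq[X] (RatFunc Fq) F, Ne, FaithfulSMul.algebraMap_eq_zero_iff,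
      FaithfulSMul.algebraMap_eq_zero_iff]
    exact hP.ne_zero
  have h := traceForm_dualSubmodule_adjoin (A := Fq[X]) (K := RatFunc Fq)
    (adjoin_top hm hP hl hcl hgen) (isIntegral_l hm hP hl hcl)
  rw [deriv_minpoly hm hP hl hcl] at h
  have h1 : (∀ y ∈ Algebra.adjoin Fq[X] {l}, ∃ a : Fq[X],
      Algebra.trace (RatFunc Fq) F (x * y) = algebraMap Fq[X] (RatFunc Fq) a) ↔
      x ∈ (Algebra.traceForm (RatFunc Fq) F).dualSubmodule
        (Subalgebra.toSubmodule (Algebra.adjoin Fq[X] {l})) := by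
    rw [LinearMap.BilinForm.mem_dualSubmodule]
    constructor
    · intro hx y hy
      obtain ⟨a, ha⟩ := hx y hy
      rw [Algebra.traceForm_apply, ha]
      exact Submodule.algebraMap_mem a
    · intro hx y hy
      have h2 := hx y hy
      rw [Algebra.traceForm_apply, Submodule.mem_one] at h2
      obtain ⟨a, ha⟩ := h2
      exact ⟨a, ha.symm⟩
  rw [h1, h, Submodule.mem_smul_pointwise_iff_exists]
  constructor
  · rintro ⟨z, hz, rfl⟩
    refine ⟨z, hz, ?_⟩
    rw [smul_eq_mul, inv_div]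
    field_simp
  · rintro ⟨z, hz, hxz⟩
    refine ⟨z, hz, ?_⟩
    rw [smul_eq_mul, inv_div, div_mul_eq_mul_div, ← hxz, mul_div_assoc, mul_comm,
      div_mul_cancel₀ _ hP0]

include hm hP hl hcl hgen in
theorem mem_adjoin {x : F} (hx : IsIntegral Fq[X] x) : x ∈ Algebra.adjoin Fq[X] {l} := by
  have hfd := finDim hm hP hl hcl hgen
  have hgal := galois hm hP hl hcl hgen
  have hint := isIntegral_l hm hP hl hcl
  have hmem : ∀ y ∈ Algebra.adjoin Fq[X] {l}, IsIntegral Fq[X] y := by
    intro y hy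
    exact adjoin_le_integralClosure hint hy
  have h1 : ∀ y ∈ Algebra.adjoin Fq[X] {l}, ∃ a : Fq[X],
      Algebra.trace (RatFunc Fq) F (x * y) = algebraMap Fq[X] (RatFunc Fq) a := by
    intro y hy
    have h2 : IsIntegral Fq[X] (Algebra.trace (RatFunc Fq) F (x * y)) :=
      Algebra.isIntegral_trace (hx.mul (hmem y hy))
    obtain ⟨a, ha⟩ := IsIntegrallyClosed.isIntegral_iff.1 h2
    exact ⟨a, ha.symm⟩
  obtain ⟨z, hz, hxz⟩ := (dual_iff hm hP hl hcl hgen x).1 h1
  let pb := (Algebra.adjoin.powerBasis' (isIntegral_K hm hP hl hcl)).map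
    ((Subalgebra.equivOfEq _ _ (adjoin_top hm hP hl hcl hgen)).trans (Subalgebra.topEquiv))
  have pbgen : pb.gen = l := by simp [pb]
  have h3 : P • x ∈ Algebra.adjoin Fq[X] ({pb.gen} : Set F) := by
    rw [pbgen, Algebra.smul_def, hxz]
    exact Subalgebra.mul_mem _ (Algebra.subset_adjoin (Set.mem_singleton l)) hz
  have h4 : (minpoly Fq[X] pb.gen).IsEisensteinAt (Ideal.span {P}) := by
    rw [pbgen, minpoly_A hm hP hl hcl]
    exact fP_eis hm hP
  have h5 := mem_adjoin_of_smul_prime_smul_of_minpoly_isEisensteinAt (K := RatFunc Fq) (B := pb)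
    hP.prime (by rw [pbgen]; exact hint) hx h3 h4
  rw [pbgen] at h5
  exact h5

end field

/-- `S_cyc`. -/
theorem t_cyc : S_cyc := by
  intro Fq _ _ P hm hP F _ _ _ _ l hl hcl hgen
  have hint := isIntegral_l hm hP hl hcl
  refine ⟨hint, finDim hm hP hl hcl hgen, galois hm hP hl hcl hgen, ?_, ?_, ?_⟩
  · intro a ha
    exact exists_sigma hm hP hl hcl hgen ha
  · intro x hx
    exact mem_adjoin hm hP hl hcl hgen hx
  · intro x
    rw [show (∀ y : F, IsIntegral Fq[X] y → ∃ a : Fq[X],
        Algebra.trace (RatFunc Fq) F (x * y) = algebraMap Fq[X] (RatFunc Fq) a) ↔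
      (∀ y ∈ Algebra.adjoin Fq[X] {l}, ∃ a : Fq[X],
      Algebra.trace (RatFunc Fq) F (x * y) = algebraMap Fq[X] (RatFunc Fq) a) from
      ⟨fun h y hy => h y (adjoin_le_integralClosure hint hy),
        fun h y hy => h y (mem_adjoin hm hP hl hcl hgen hy)⟩, dual_iff hm hP hl hcl hgen x]
    constructor
    · rintro ⟨z, hz, h⟩
      exact ⟨z, adjoin_le_integralClosure hint hz, h⟩
    · rintro ⟨z, hz, h⟩
      exact ⟨z, mem_adjoin hm hP hl hcl hgen hz, h⟩

end Pool.Agent.J4H92.GK
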