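import Mathlib
import Pool.Agent.J4H98.GK.Jobs

/-!
# A place at infinity (`S_inf`)
-/

set_option autoImplicit false
set_option linter.unusedSectionVars false

open Polynomial WithZero

namespace Pool.Agent.J4H92.GK

open Pool.Agent.J4H98.GK

section

variable (Fq : Type) [Field Fq]

open Classical in
/-- The valuation ring at infinity. -/
noncomputable abbrev Oinf : ValuationSubring (RatFunc Fq) :=
  (RatFunc.inftyValuation Fq).valuationSubring

open Classical in
theorem Oinf_dvr : IsDiscreteValuationRing (Oinf Fq) := by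
  have h1 : Nontrivial (MonoidWithZeroHom.valueGroup
      (MonoidWithZeroHom.ofClass (RatFunc.inftyValuation Fq))) := inferInstance
  infer_instance

end

/-- A discrete valuation with a pole of `T`. -/
theorem exists_val (Fq : Type) [Field Fq] (F : Type) [Field F] [Algebra (RatFunc Fq) F]
    [FiniteDimensional (RatFunc Fq) F] [Algebra.IsSeparable (RatFunc Fq) F] :
    ∃ w : Valuation F ℤᵐ⁰, 1 < w (algebraMap (RatFunc Fq) F RatFunc.X) := by
  classical
  have hdvr := Oinf_dvr Fq
  let O := Oinf Fq
  have : IsFractionRing O (RatFunc Fq) := inferInstance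
  let B := integralClosure O F
  have hded : IsDedekindDomain B := integralClosure.isDedekindDomain O (RatFunc Fq) F
  have hfrac : IsFractionRing B F :=
    integralClosure.isFractionRing_of_finite_extension (RatFunc Fq) F
  have hX1 : (1 : ℤᵐ⁰) < RatFunc.inftyValuation Fq RatFunc.X := by
    rw [RatFunc.inftyValuation.X, ← exp_zero, exp_lt_exp]
    norm_num
  have hX : (RatFunc.X : RatFunc Fq)⁻¹ ∈ O := by
    change (RatFunc.inftyValuation Fq) (RatFunc.X : RatFunc Fq)⁻¹ ≤ 1
    rw [map_inv₀]
    exact inv_le_one_of_one_le₀ hX1.le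
  let t : O := ⟨(RatFunc.X)⁻¹, hX⟩
  have ht : ¬ IsUnit t := by
    intro h
    obtain ⟨s, hs⟩ := h.exists_right_inv
    have h1 : (RatFunc.X : RatFunc Fq)⁻¹ * (s : RatFunc Fq) = 1 := congrArg Subtype.val hs
    have h2 : (s : RatFunc Fq) = RatFunc.X := by
      rw [inv_mul_eq_one₀ RatFunc.X_ne_zero] at h1
      exact h1.symm
    have h3 : RatFunc.inftyValuation Fq (s : RatFunc Fq) ≤ 1 := s.2
    rw [h2] at h3
    exact absurd (lt_of_lt_of_le hX1 h3) (lt_irrefl _)
  have ht0 : t ≠ 0 := by
    intro h
    have h1 : (RatFunc.X : RatFunc Fq)⁻¹ = 0 := congrArg Subtype.val h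
    exact RatFunc.X_ne_zero (inv_eq_zero.1 h1)
  let tB : B := algebraMap O B t
  have hinj : Function.Injective (algebraMap O B) := FaithfulSMul.algebraMap_injective O B
  have hloc : IsLocalHom (algebraMap O B) := Algebra.IsIntegral.isLocalHom O B
  have htB : ¬ IsUnit tB := fun h => ht (hloc.map_nonunit t h)
  have htB0 : tB ≠ 0 := by
    intro h
    apply ht0
    apply hinj
    rw [map_zero]
    exact h
  obtain ⟨M, hM, hmem⟩ := exists_max_ideal_of_mem_nonunits (mem_nonunits_iff.2 htB)
  have hMbot : M ≠ ⊥ := by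
    rintro rfl
    exact htB0 (Ideal.mem_bot.1 hmem)
  let v : IsDedekindDomain.HeightOneSpectrum B := ⟨M, hM.isPrime, hMbot⟩
  refine ⟨v.valuation F, ?_⟩
  have h1 : v.valuation F (algebraMap B F tB) < 1 :=
    (v.valuation_lt_one_iff_mem tB).2 hmem
  have h2 : algebraMap B F tB = (algebraMap (RatFunc Fq) F RatFunc.X)⁻¹ := by
    rw [← map_inv₀]
    rfl
  rw [h2, map_inv₀] at h1
  exact (inv_lt_one₀ (zero_lt_iff.2 (by
    rw [Ne, Valuation.zero_iff, map_eq_zero]
    exact RatFunc.X_ne_zero))).1 h1

/-- Coefficients of a product of linear factors. -/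
theorem coeff_le {F : Type} [Field F] (w : Valuation F ℤᵐ⁰) (s : Multiset F) :
    (∀ r ∈ s, w r ≤ 1) → ∀ n, w ((s.map fun r => X - C r).prod.coeff n) ≤ 1 := by
  induction s using Multiset.induction with
  | empty =>
    intro _ n
    rw [Multiset.map_zero, Multiset.prod_zero, coeff_one]
    split_ifs
    · rw [map_one]
    · rw [map_zero]; exact zero_le_one
  | cons a s ih =>
    intro h n
    have ih' := ih fun r hr => h r (Multiset.mem_cons_of_mem hr)
    have ha := h a (Multiset.mem_cons_self a s)
    have hmul : ∀ n, w (a * ((s.map fun r => X - C r).prod.coeff n)) ≤ 1 := by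
      intro n
      rw [map_mul]
      exact mul_le_one' ha (ih' n)
    rw [Multiset.map_cons, Multiset.prod_cons, sub_mul, coeff_sub, coeff_C_mul]
    refine (w.map_sub _ _).trans (max_le ?_ (hmul n))
    cases n with
    | zero => rw [coeff_X_mul_zero, map_zero]; exact zero_le_one
    | succ n => rw [coeff_X_mul]; exact ih' n

/-- `S_inf`. -/
theorem t_inf : S_inf := by
  intro p _ Fq _ _ _ F _ _ _ _ _ _
  classical
  obtain ⟨w, hw⟩ := exists_val Fq F
  have hXF : algebraMap (RatFunc Fq) F RatFunc.X = algebraMap Fq[X] F X := by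
    rw [IsScalarTower.algebraMap_apply Fq[X] (RatFunc Fq) F, RatFunc.algebraMap_X]
  rw [hXF] at hw
  -- the valuation as a homomorphism
  let ν : Additive Fˣ →+ ℤ :=
    { toFun := fun u => log (w ((Additive.toMul u : Fˣ) : F))
      map_zero' := by
        rw [toMul_zero, Units.val_one, map_one, log_one]
      map_add' := by
        intro a b
        rw [toMul_add, Units.val_mul, map_mul, log_mul]
        · rw [Ne, Valuation.zero_iff]; exact Units.ne_zero _
        · rw [Ne, Valuation.zero_iff]; exact Units.ne_zero _ }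
  refine ⟨ν, ?_⟩
  intro u hu hν
  have hint : IsIntegral (RatFunc Fq) (u : F) := hu.tower_top
  -- all conjugates have valuation 1
  have hconj : ∀ σ : F ≃ₐ[RatFunc Fq] F, w (σ (u : F)) = 1 := by
    intro σ
    have h1 : log (w (σ (u : F))) = 0 := hν σ
    have h2 : w (σ (u : F)) ≠ 0 := by
      rw [Ne, Valuation.zero_iff, map_eq_zero_iff _ σ.injective]
      exact u.ne_zero
    rw [← exp_log h2, h1, exp_zero]
  -- coefficients of the minimal polynomial
  have hsplit := Normal.splits (inferInstance : Normal (RatFunc Fq) F) (u : F)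
  have hroots : ∀ r ∈ ((minpoly (RatFunc Fq) (u : F)).map (algebraMap (RatFunc Fq) F)).roots,
      w r ≤ 1 := by
    intro r hr
    rw [mem_roots', IsRoot, eval_map_algebraMap] at hr
    have h1 : IsConjRoot (RatFunc Fq) (u : F) r := isConjRoot_of_aeval_eq_zero hint hr.2
    obtain ⟨σ, hσ⟩ := isConjRoot_iff_exists_algEquiv.1 h1.symm
    rw [← hσ, hconj σ]
  have hcoeffF : ∀ n, w (((minpoly (RatFunc Fq) (u : F)).map
      (algebraMap (RatFunc Fq) F)).coeff n) ≤ 1 := by
    intro n
    rw [hsplit.eq_prod_roots]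
    rw [((minpoly.monic hint).map (algebraMap (RatFunc Fq) F)).leadingCoeff, C_1, one_mul]
    exact coeff_le w _ hroots n
  have hcoeff : ∀ n, w (algebraMap Fq[X] F ((minpoly Fq[X] (u : F)).coeff n)) ≤ 1 := by
    intro n
    have h1 := hcoeffF n
    rw [minpoly.isIntegrallyClosed_eq_field_fractions' (RatFunc Fq) hu, Polynomial.map_map,
      ← IsScalarTower.algebraMap_eq, coeff_map] at h1
    exact h1
  -- constants
  have hconst : ∀ c : Fq, w (algebraMap Fq[X] F (C c)) ≤ 1 := by
    intro c
    by_contra hcon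
    push Not at hcon
    have h1 : (w (algebraMap Fq[X] F (C c))) ^ Fintype.card Fq = w (algebraMap Fq[X] F (C c)) := by
      rw [← map_pow, ← map_pow, ← C_pow, FiniteField.pow_card]
    have h2 : (w (algebraMap Fq[X] F (C c))) < (w (algebraMap Fq[X] F (C c))) ^ Fintype.card Fq :=
      lt_self_pow₀ hcon Fintype.one_lt_card
    rw [h1] at h2
    exact lt_irrefl _ h2
  have hconst1 : ∀ c : Fq, c ≠ 0 → w (algebraMap Fq[X] F (C c)) = 1 := by
    intro c hc
    apply le_antisymm (hconst c)
    have h1 := hconst c⁻¹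
    have h2 : w (algebraMap Fq[X] F (C c)) * w (algebraMap Fq[X] F (C c⁻¹)) = 1 := by
      rw [← map_mul, ← map_mul, ← C_mul, mul_inv_cancel₀ hc, C_1, map_one, map_one]
    calc (1 : ℤᵐ⁰) = w (algebraMap Fq[X] F (C c)) * w (algebraMap Fq[X] F (C c⁻¹)) := h2.symm
      _ ≤ w (algebraMap Fq[X] F (C c)) * 1 := mul_le_mul_right h1 _
      _ = w (algebraMap Fq[X] F (C c)) := mul_one _
  have hupper : ∀ a : Fq[X], w (algebraMap Fq[X] F a) ≤ w (algebraMap Fq[X] F X) ^ a.natDegree := by
    intro a
    rw [a.as_sum_range_C_mul_X_pow, map_sum]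
    refine Valuation.map_sum_le w fun i hi => ?_
    rw [← a.as_sum_range_C_mul_X_pow, map_mul, map_mul, map_pow, map_pow]
    calc w (algebraMap Fq[X] F (C (a.coeff i))) * w (algebraMap Fq[X] F X) ^ i
        ≤ 1 * w (algebraMap Fq[X] F X) ^ i := mul_le_mul_left (hconst _) _
      _ = w (algebraMap Fq[X] F X) ^ i := one_mul _
      _ ≤ w (algebraMap Fq[X] F X) ^ a.natDegree :=
        pow_le_pow_right₀ hw.le (by rw [Finset.mem_range] at hi; omega)
  have hdeg : ∀ a : Fq[X], w (algebraMap Fq[X] F a) ≤ 1 → a = C (a.coeff 0) := by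
    intro a ha
    by_contra hne
    have hd : 0 < a.natDegree := by
      rw [Nat.pos_iff_ne_zero]
      intro h0
      exact hne (eq_C_of_natDegree_eq_zero h0)
    have ha0 : a ≠ 0 := by
      rintro rfl
      simp at hd
    have h1 : w (algebraMap Fq[X] F a) = w (algebraMap Fq[X] F X) ^ a.natDegree := by
      conv_lhs => rw [← a.eraseLead_add_C_mul_X_pow]
      rw [map_add, map_mul, map_pow]
      have h2 : w (algebraMap Fq[X] F (C a.leadingCoeff) * algebraMap Fq[X] F X ^ a.natDegree) =
          w (algebraMap Fq[X] F X) ^ a.natDegree := by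
        rw [map_mul, map_pow, hconst1 _ (leadingCoeff_ne_zero.2 ha0), one_mul]
      rw [← h2]
      apply Valuation.map_add_eq_of_lt_right
      rw [h2]
      refine lt_of_le_of_lt (hupper _) ?_
      refine pow_lt_pow_right₀ hw ?_
      have := a.eraseLead_natDegree_le
      omega
    rw [h1] at ha
    exact absurd (lt_of_lt_of_le (one_lt_pow₀ hw hd.ne') ha) (lt_irrefl _)
  -- `u` is algebraic over `Fq`
  let _ : Algebra Fq F := ((algebraMap Fq[X] F).comp C).toAlgebra
  let q : Fq[X] := (minpoly Fq[X] (u : F)).map (evalRingHom 0)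
  have hq : q.map C = minpoly Fq[X] (u : F) := by
    ext1 n
    rw [coeff_map, coeff_map, coe_evalRingHom, ← coeff_zero_eq_eval_zero]
    exact (hdeg _ (hcoeff n)).symm
  have hint2 : IsIntegral Fq (u : F) := by
    refine ⟨q, (minpoly.monic hu).map _, ?_⟩
    have h1 := minpoly.aeval Fq[X] (u : F)
    rw [← hq, aeval_def, eval₂_map] at h1
    exact h1
  let S := Algebra.adjoin Fq {(u : F)}
  have hfg : Module.Finite Fq S := by
    have := hint2.fg_adjoin_singleton
    exact ⟨(Submodule.fg_top _).2 this⟩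
  have hfin : Finite S := Module.finite_of_finite Fq
  have hchar : CharP S p := charP_of_injective_algebraMap (algebraMap Fq S).injective p
  have hexp : ExpChar S p := ExpChar.prime (Fact.out : p.Prime)
  have hperf : PerfectRing S p := PerfectRing.ofFiniteOfIsReduced p S
  obtain ⟨z, hz⟩ := surjective_frobenius S p ⟨u, Algebra.subset_adjoin (Set.mem_singleton _)⟩
  refine ⟨(z : F), ?_⟩
  have h1 := congrArg Subtype.val hz
  rw [frobenius_def] at h1
  exact h1

end Pool.Agent.J4H92.GK
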