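import Mathlib
import Pool.Agent.J4H98.GK.Gs

/-!
# Non-vanishing of the Gauss sums (`S_nz`)
-/

set_option autoImplicit false
set_option linter.unusedSectionVars false

open Polynomial TensorProduct

namespace Pool.Agent.J4H92.GK

open Pool.Agent.J4H98.GK

section

variable {p : ℕ} [Fact p.Prime] {𝔽 F : Type} [Field 𝔽] [Fintype 𝔽] [Field F]
  [Algebra (ZMod p) 𝔽] [Algebra (ZMod p) F]

theorem nontrivV : Nontrivial (𝔽 ⊗[ZMod p] F) :=
  Algebra.TensorProduct.nontrivial_of_algebraMap_injective_of_flat_left (ZMod p) 𝔽 F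
    (algebraMap (ZMod p) F).injective

theorem charV : CharP (𝔽 ⊗[ZMod p] F) p := by
  have := nontrivV (p := p) (𝔽 := 𝔽) (F := F)
  exact charP_of_injective_algebraMap (algebraMap (ZMod p) (𝔽 ⊗[ZMod p] F)).injective p

/-- Frobenius as a linear map. -/
noncomputable def frobL (p : ℕ) [Fact p.Prime] (R : Type) [CommRing R] [Algebra (ZMod p) R] :
    R →ₗ[ZMod p] R := by
  have hc : Fintype.card (ZMod p) = p := ZMod.card p
  exact (FiniteField.frobeniusAlgHom (ZMod p) R).toLinearMap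

theorem frobL_apply (R : Type) [CommRing R] [Algebra (ZMod p) R] (x : R) : frobL p R x = x ^ p := by
  change x ^ Fintype.card (ZMod p) = x ^ p
  rw [ZMod.card]

theorem frobL_inj (R : Type) [Field R] [Algebra (ZMod p) R] : Function.Injective (frobL p R) := by
  rw [injective_iff_map_eq_zero]
  intro a ha
  rw [frobL_apply] at ha
  exact pow_eq_zero_iff (Fact.out : p.Prime).ne_zero |>.1 ha

theorem frob_map (x : 𝔽 ⊗[ZMod p] F) :
    x ^ p = TensorProduct.map (frobL p 𝔽) (frobL p F) x := by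
  rw [← frobL_apply]
  induction x with
  | zero => rw [map_zero, map_zero]
  | tmul a b =>
    rw [frobL_apply, Algebra.TensorProduct.tmul_pow, TensorProduct.map_tmul, frobL_apply,
      frobL_apply]
  | add x y hx hy => rw [map_add, map_add, hx, hy]

theorem reducedV {x : 𝔽 ⊗[ZMod p] F} {n : ℕ} (h : x ^ n = 0) : x = 0 := by
  have h1 : ∀ m : ℕ, ∀ x : 𝔽 ⊗[ZMod p] F, x ^ p ^ m = 0 → x = 0 := by
    intro m
    induction m with
    | zero => intro x hx; rwa [pow_zero, pow_one] at hx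
    | succ m ih =>
      intro x hx
      rw [pow_succ, pow_mul] at hx
      apply ih
      rw [frob_map] at hx
      have hinj : Function.Injective (TensorProduct.map (frobL p 𝔽) (frobL p F)) :=
        TensorProduct.map_injective_of_flat_flat _ _ (frobL_inj 𝔽) (frobL_inj F)
      exact hinj (by rw [hx, map_zero])
  apply h1 n
  have h2 : n ≤ p ^ n := (Nat.lt_pow_self (Fact.out : p.Prime).one_lt).le
  rw [← Nat.sub_add_cancel h2, pow_add, h, mul_zero]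

/-- `f(1 ⊗ T)` is a unit. -/
theorem iot_unit {T : F} (hT : Transcendental (ZMod p) T) {f : 𝔽[X]} (hf : f ≠ 0) :
    IsUnit (iot p T f) := by
  by_contra hcon
  obtain ⟨M, hM, hmem⟩ := exists_max_ideal_of_mem_nonunits (mem_nonunits_iff.2 hcon)
  let L := (𝔽 ⊗[ZMod p] F) ⧸ M
  let _ : Field L := Ideal.Quotient.field M
  let φF : F →ₐ[ZMod p] L := (Ideal.Quotient.mkₐ (ZMod p) M).comp
    (Algebra.TensorProduct.includeRight : F →ₐ[ZMod p] 𝔽 ⊗[ZMod p] F)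
  let t : L := φF T
  have ht : ¬ IsAlgebraic (ZMod p) t := by
    intro h
    exact hT ((isAlgebraic_algHom_iff φF φF.toRingHom.injective).1 h)
  have h1 : aeval t f = 0 := by
    have h2 : t = Ideal.Quotient.mkₐ 𝔽 M ((1 : 𝔽) ⊗ₜ[ZMod p] T) := rfl
    rw [h2, Polynomial.aeval_algHom_apply]
    exact Ideal.Quotient.eq_zero_iff_mem.2 hmem
  have h2 : IsAlgebraic 𝔽 t := ⟨f, hf, h1⟩
  have : Algebra.IsAlgebraic (ZMod p) 𝔽 := inferInstance
  exact ht (h2.restrictScalars (ZMod p))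

section gauss

variable {q d : ℕ} {ζ : 𝔽} (hζ : ζ ≠ 0) {T : F} (cl : 𝔽 →+ F)

/-- `x ↦ x^q` is additive. -/
theorem pow_q_add {e : ℕ} (R : Type) [CommRing R] [Algebra (ZMod p) R] (x y : R) :
    (x + y) ^ p ^ e = x ^ p ^ e + y ^ p ^ e := by
  induction e with
  | zero => rw [pow_zero, pow_one, pow_one, pow_one]
  | succ e ih =>
    rw [pow_succ, pow_mul, pow_mul, pow_mul, ih]
    have h := map_add (frobL p R) (x ^ p ^ e) (y ^ p ^ e)
    rw [frobL_apply, frobL_apply, frobL_apply] at h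
    exact h

/-- `x ↦ x^q`. -/
noncomputable def powq (p e : ℕ) [Fact p.Prime] (R : Type) [CommRing R] [Algebra (ZMod p) R] :
    R →+ R where
  toFun x := x ^ p ^ e
  map_zero' := zero_pow (pow_ne_zero _ (Fact.out : p.Prime).ne_zero)
  map_add' := pow_q_add R

include hζ in
/-- `g_m^q = (ζ^(q^(m+1)) ⊗ 1 - 1 ⊗ T) * g_{m+1}`. -/
theorem gs_step {e : ℕ} (hq : q = p ^ e) (hcl : ∀ a, cl (ζ * a) = T * cl a + cl a ^ q) (m : ℕ) :
    gs p q cl m ^ q = ((ζ ^ q ^ (m + 1)) ⊗ₜ[ZMod p] (1 : F) - (1 : 𝔽) ⊗ₜ[ZMod p] T) *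
      gs p q cl (m + 1) := by
  have h1 : gs p q cl m ^ q = - ∑ a : 𝔽, ((a⁻¹ ^ q ^ (m + 1)) ⊗ₜ[ZMod p] (cl a ^ q)) := by
    have h2 : gs p q cl m ^ q = powq p e _ (gs p q cl m) := by rw [hq]; rfl
    rw [h2, gs, map_neg, map_sum]
    congr 1
    refine Finset.sum_congr rfl fun a _ => ?_
    change ((a⁻¹ ^ q ^ m) ⊗ₜ[ZMod p] cl a) ^ p ^ e = _
    rw [← hq, Algebra.TensorProduct.tmul_pow, ← pow_mul, ← pow_succ]
  have h3 : ∑ a : 𝔽, ((a⁻¹ ^ q ^ (m + 1)) ⊗ₜ[ZMod p] (cl (ζ * a))) =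
      ∑ b : 𝔽, (((ζ ^ q ^ (m + 1)) * (b⁻¹ ^ q ^ (m + 1))) ⊗ₜ[ZMod p] (cl b)) := by
    refine Fintype.sum_equiv (Equiv.mulLeft₀ ζ hζ) _ _ fun a => ?_
    change _ = ((ζ ^ q ^ (m + 1)) * ((ζ * a)⁻¹ ^ q ^ (m + 1))) ⊗ₜ[ZMod p] (cl (ζ * a))
    congr 1
    rw [mul_inv, mul_pow, ← mul_assoc, ← mul_pow, mul_inv_cancel₀ hζ, one_pow, one_mul]
  have h4 : ∀ a : 𝔽, cl a ^ q = cl (ζ * a) - T * cl a := by
    intro a
    rw [hcl, add_sub_cancel_left]
  rw [h1, gs]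
  simp only [h4, TensorProduct.tmul_sub, Finset.sum_sub_distrib]
  rw [h3, sub_mul, mul_neg, mul_neg, Finset.mul_sum, Finset.mul_sum]
  simp only [Algebra.TensorProduct.tmul_mul_tmul, one_mul]
  abel

include hζ in
theorem gs0_pow {e : ℕ} (hq : q = p ^ e) (hcl : ∀ a, cl (ζ * a) = T * cl a + cl a ^ q) (m : ℕ) :
    ∃ r, gs p q cl 0 ^ q ^ m = r * gs p q cl m := by
  induction m with
  | zero => exact ⟨1, by rw [pow_zero, pow_one, one_mul]⟩
  | succ m ih =>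
    obtain ⟨r, hr⟩ := ih
    refine ⟨r ^ q * ((ζ ^ q ^ (m + 1)) ⊗ₜ[ZMod p] (1 : F) - (1 : 𝔽) ⊗ₜ[ZMod p] T), ?_⟩
    have h1 : gs p q cl 0 ^ q ^ (m + 1) = (gs p q cl 0 ^ q ^ m) ^ q := by
      rw [pow_succ, pow_mul]
    rw [h1, hr, mul_pow, gs_step hζ cl hq hcl, mul_assoc]

include hζ in
theorem gk_dvd {e : ℕ} (hq : q = p ^ e) (hcl : ∀ a, cl (ζ * a) = T * cl a + cl a ^ q) (k d : ℕ) :
    ∃ (K : ℕ) (r : 𝔽 ⊗[ZMod p] F), gs p q cl 0 ^ K = r * gk p q d cl k := by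
  induction d with
  | zero => exact ⟨0, 1, by rw [gk, Finset.prod_range_zero, pow_zero, one_mul]⟩
  | succ d ih =>
    obtain ⟨K, r, hr⟩ := ih
    obtain ⟨s, hs⟩ := gs0_pow hζ cl hq hcl d
    refine ⟨K + q ^ d * (k / q ^ d % q), r * s ^ (k / q ^ d % q), ?_⟩
    rw [pow_add, pow_mul, hr, hs, mul_pow, gk, gk, Finset.prod_range_succ]
    ring

/-- The trace functional on `𝔽 ⊗ F`. -/
noncomputable def trF (p : ℕ) [Fact p.Prime] (𝔽 F : Type) [Field 𝔽] [Fintype 𝔽] [Field F]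
    [Algebra (ZMod p) 𝔽] [Algebra (ZMod p) F] : 𝔽 ⊗[ZMod p] F →ₗ[ZMod p] F :=
  (TensorProduct.lid (ZMod p) F).toLinearMap ∘ₗ
    TensorProduct.map (Algebra.trace (ZMod p) 𝔽) LinearMap.id

theorem trF_tmul (a : 𝔽) (x : F) :
    trF p 𝔽 F (a ⊗ₜ[ZMod p] x) = (Algebra.trace (ZMod p) 𝔽 a) • x := by
  simp [trF]

theorem sum_trace : ∑ a : 𝔽, (Algebra.trace (ZMod p) 𝔽 a⁻¹) • a = -1 := by
  classical
  have h1 : ∀ a : 𝔽, (Algebra.trace (ZMod p) 𝔽 a⁻¹) • a =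
      ∑ i ∈ Finset.range (Module.finrank (ZMod p) 𝔽), a⁻¹ ^ p ^ i * a := by
    intro a
    rw [Algebra.smul_def, FiniteField.algebraMap_trace_eq_sum_pow, Finset.sum_mul, Nat.card_zmod]
  simp only [h1]
  rw [Finset.sum_comm]
  have hn : Fintype.card 𝔽 = p ^ Module.finrank (ZMod p) 𝔽 := by
    rw [Module.card_eq_pow_finrank (K := ZMod p), ZMod.card]
  have hpos : 0 < Module.finrank (ZMod p) 𝔽 := Module.finrank_pos
  obtain ⟨n, hn'⟩ : ∃ n, Module.finrank (ZMod p) 𝔽 = n + 1 :=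
    ⟨Module.finrank (ZMod p) 𝔽 - 1, by omega⟩
  rw [hn', Finset.sum_range_succ', Finset.sum_eq_zero, zero_add]
  · -- i = 0
    have h2 : ∀ a : 𝔽, a⁻¹ ^ p ^ 0 * a = if a = 0 then 0 else 1 := by
      intro a
      rw [pow_zero, pow_one]
      split_ifs with h
      · rw [h, mul_zero]
      · exact inv_mul_cancel₀ h
    simp only [h2]
    have h3 : ∀ a : 𝔽, (if a = 0 then (0 : 𝔽) else 1) = 1 - (if a = 0 then 1 else 0) := by
      intro a
      split_ifs <;> simp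
    simp only [h3]
    rw [Finset.sum_sub_distrib, Finset.sum_const, Finset.card_univ, Finset.sum_ite_eq',
      nsmul_one, FiniteField.cast_card_eq_zero, zero_sub]
    simp
  · intro i hi
    rw [Finset.mem_range] at hi
    have hp := (Fact.out : p.Prime).one_lt
    have hpi : 1 < p ^ (i + 1) := Nat.one_lt_pow (Nat.succ_ne_zero i) hp
    have h2 : ∀ a : 𝔽, a⁻¹ ^ p ^ (i + 1) * a = a⁻¹ ^ (p ^ (i + 1) - 1) := by
      intro a
      by_cases ha : a = 0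
      · rw [ha, mul_zero, inv_zero, zero_pow]
        omega
      · conv_lhs => rw [← Nat.sub_add_cancel hpi.le, pow_succ]
        rw [mul_assoc, inv_mul_cancel₀ ha, mul_one]
    simp only [h2]
    have h3 : ∑ a : 𝔽, a⁻¹ ^ (p ^ (i + 1) - 1) = ∑ b : 𝔽, b ^ (p ^ (i + 1) - 1) :=
      Fintype.sum_equiv (Equiv.inv 𝔽) _ _ fun a => rfl
    rw [h3]
    apply FiniteField.sum_pow_lt_card_sub_one
    have h4 : p ^ (i + 1) < p ^ (n + 1) := Nat.pow_lt_pow_right hp (by omega)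
    rw [hn, hn']
    omega

theorem gs0_ne (hc : cl 1 ≠ 0) : gs p q cl 0 ≠ 0 := by
  intro h
  have h1 := congrArg (trF p 𝔽 F) h
  rw [map_zero, gs, map_neg, map_sum] at h1
  have h2 : ∀ a : 𝔽, trF p 𝔽 F ((a⁻¹ ^ q ^ 0) ⊗ₜ[ZMod p] cl a) =
      cl ((Algebra.trace (ZMod p) 𝔽 a⁻¹) • a) := by
    intro a
    rw [trF_tmul, pow_zero, pow_one, ZMod.map_smul]
  simp only [h2] at h1
  rw [← map_sum, sum_trace, map_neg, neg_neg] at h1
  exact hc h1

end gauss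

end

/-- `S_nz`. -/
theorem t_nz : S_nz := by
  intro p e d _ he 𝔽 F _ _ _ _ _ hcard ζ hζ T cl hT hcl hc k f hf
  by_contra hne
  obtain ⟨K, r, hr⟩ := gk_dvd hζ cl rfl hcl k d
  have h1 : iot p T f * gs p (p ^ e) cl 0 ^ K = 0 := by
    rw [hr, mul_left_comm, hf, mul_zero]
  have h2 : (iot p T f * gs p (p ^ e) cl 0) ^ (K + 1) = 0 := by
    rw [mul_pow, pow_succ, pow_succ]
    calc iot p T f ^ K * iot p T f * (gs p (p ^ e) cl 0 ^ K * gs p (p ^ e) cl 0)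
        = iot p T f ^ K * (iot p T f * gs p (p ^ e) cl 0 ^ K) * gs p (p ^ e) cl 0 := by ring
      _ = 0 := by rw [h1, mul_zero, zero_mul]
  have h3 := reducedV h2
  have hu := iot_unit hT hne
  exact gs0_ne cl hc (hu.mul_right_eq_zero.1 h3)

end Pool.Agent.J4H92.GK
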