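import Mathlib
import Pool.Agent.J4H98.GK.Jobs

/-!
# An abstract rank argument over the Witt vectors (`S_witt`)
-/

set_option autoImplicit false
set_option linter.unusedSectionVars false

open Polynomial TensorProduct

namespace Pool.Agent.J4H92.GK

open Pool.Agent.J4H98.GK

section

variable {p : ℕ} [Fact p.Prime] {𝔽 : Type} [Field 𝔽] [CharP 𝔽 p]

theorem witt_natCast_ne_zero {n : ℕ} (hn : n ≠ 0) : (n : WittVector p 𝔽) ≠ 0 := by
  have hp := (Fact.out : p.Prime)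
  obtain ⟨a, m, hm, rfl⟩ := Nat.exists_eq_pow_mul_and_not_dvd hn p hp.ne_one
  rw [Nat.cast_mul, Nat.cast_pow]
  refine mul_ne_zero (pow_ne_zero _ (WittVector.p_nonzero p 𝔽)) ?_
  intro h
  have h1 := congrArg (WittVector.constantCoeff (p := p) (R := 𝔽)) h
  rw [map_natCast, map_zero, CharP.cast_eq_zero_iff 𝔽 p] at h1
  exact hm h1

instance witt_charZero : CharZero (WittVector p 𝔽) := by
  refine ⟨fun a b hab => ?_⟩
  by_contra hne
  rcases lt_or_gt_of_ne hne with h | h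
  · apply witt_natCast_ne_zero (p := p) (𝔽 := 𝔽) (n := b - a) (by omega)
    rw [Nat.cast_sub h.le, sub_eq_zero]
    exact hab.symm
  · apply witt_natCast_ne_zero (p := p) (𝔽 := 𝔽) (n := a - b) (by omega)
    rw [Nat.cast_sub h.le, sub_eq_zero]
    exact hab

instance witt_flat : Module.Flat ℤ (WittVector p 𝔽) := by
  have : Module.IsTorsionFree ℤ (WittVector p 𝔽) := inferInstance
  infer_instance

/-- `χ(a) = τ(a)^k`. -/
noncomputable def chi (p : ℕ) [Fact p.Prime] {𝔽 : Type} [Field 𝔽] (k : ℕ) (a : 𝔽ˣ) :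
    WittVector p 𝔽 :=
  (WittVector.teichmuller p (a : 𝔽)) ^ k

theorem chi_mul (k : ℕ) (a b : 𝔽ˣ) : chi p k (a * b) = chi p k a * chi p k b := by
  rw [chi, chi, chi, Units.val_mul, map_mul, mul_pow]

theorem chi_inv (k : ℕ) (a : 𝔽ˣ) : chi p k a⁻¹ * chi p k a = 1 := by
  rw [← chi_mul, inv_mul_cancel, chi, Units.val_one, map_one, one_pow]

theorem cc_chi (k : ℕ) (a : 𝔽ˣ) : WittVector.constantCoeff (chi p k a) = (a : 𝔽) ^ k := by
  rw [chi, map_pow]
  rfl

section act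

variable [Fintype 𝔽] {M N : Type} [AddCommGroup M] [AddCommGroup N]

/-- The projector. -/
noncomputable def proj (p : ℕ) [Fact p.Prime] {𝔽 : Type} [Field 𝔽] [CharP 𝔽 p] [Fintype 𝔽]
    {M : Type} [AddCommGroup M] (k : ℕ) (ρ : 𝔽ˣ →* Module.End ℤ M) :
    WittVector p 𝔽 ⊗[ℤ] M →ₗ[WittVector p 𝔽] WittVector p 𝔽 ⊗[ℤ] M := by
  classical
  exact ∑ a : 𝔽ˣ, chi p k a⁻¹ • (ρ a).baseChange (WittVector p 𝔽)

theorem proj_apply (k : ℕ) (ρ : 𝔽ˣ →* Module.End ℤ M) (z : WittVector p 𝔽 ⊗[ℤ] M) :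
    letI := Classical.decEq 𝔽
    proj p k ρ z = ∑ a : 𝔽ˣ, chi p k a⁻¹ • (ρ a).baseChange (WittVector p 𝔽) z := by
  classical
  rw [proj, LinearMap.sum_apply]
  rfl

theorem rho_mul (ρ : 𝔽ˣ →* Module.End ℤ M) (a b : 𝔽ˣ) (z : WittVector p 𝔽 ⊗[ℤ] M) :
    (ρ a).baseChange (WittVector p 𝔽) ((ρ b).baseChange (WittVector p 𝔽) z) =
      (ρ (a * b)).baseChange (WittVector p 𝔽) z := by
  rw [map_mul]
  induction z with
  | zero => simp
  | tmul w m => simp [LinearMap.baseChange_tmul]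
  | add x y hx hy => simp [hx, hy]

theorem rho_proj (k : ℕ) (ρ : 𝔽ˣ →* Module.End ℤ M) (b : 𝔽ˣ) (z : WittVector p 𝔽 ⊗[ℤ] M) :
    (ρ b).baseChange (WittVector p 𝔽) (proj p k ρ z) = chi p k b • proj p k ρ z := by
  classical
  rw [proj_apply, map_sum, Finset.smul_sum]
  refine Fintype.sum_equiv (Equiv.mulLeft b) _ _ fun a => ?_
  rw [map_smul, rho_mul, Equiv.coe_mulLeft, smul_smul]
  congr 1
  rw [mul_inv, chi_mul, ← mul_assoc, mul_comm (chi p k b), chi_inv, one_mul]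

theorem equi (ρ : 𝔽ˣ →* Module.End ℤ M) (ρ' : 𝔽ˣ →* Module.End ℤ N) (f : M →ₗ[ℤ] N)
    (hf : ∀ a m, f (ρ a m) = ρ' a (f m)) (a : 𝔽ˣ) (z : WittVector p 𝔽 ⊗[ℤ] M) :
    f.baseChange (WittVector p 𝔽) ((ρ a).baseChange (WittVector p 𝔽) z) =
      (ρ' a).baseChange (WittVector p 𝔽) (f.baseChange (WittVector p 𝔽) z) := by
  induction z with
  | zero => simp
  | tmul w m => simp [LinearMap.baseChange_tmul, hf]
  | add x y hx hy => simp [hx, hy]

theorem proj_equi (k : ℕ) (ρ : 𝔽ˣ →* Module.End ℤ M) (ρ' : 𝔽ˣ →* Module.End ℤ N) (f : M →ₗ[ℤ] N)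
    (hf : ∀ a m, f (ρ a m) = ρ' a (f m)) (z : WittVector p 𝔽 ⊗[ℤ] M) :
    f.baseChange (WittVector p 𝔽) (proj p k ρ z) =
      proj p k ρ' (f.baseChange (WittVector p 𝔽) z) := by
  classical
  rw [proj_apply, proj_apply, map_sum]
  refine Finset.sum_congr rfl fun a _ => ?_
  rw [map_smul, equi ρ ρ' f hf]

end act

section V

variable {X V : Type} [AddCommGroup X] [AddCommGroup V] [Module 𝔽 V]

/-- `w ⊗ x ↦ (w mod p) s(x)`. -/
noncomputable def red (p : ℕ) [Fact p.Prime] {𝔽 : Type} [Field 𝔽] {X V : Type} [AddCommGroup X]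
    [AddCommGroup V] [Module 𝔽 V] (s : X →ₗ[ℤ] V) : WittVector p 𝔽 ⊗[ℤ] X →ₗ[ℤ] V :=
  TensorProduct.lift (LinearMap.mk₂ ℤ (fun w x => WittVector.constantCoeff w • s x)
    (fun a b x => by rw [map_add, add_smul])
    (fun n a x => by rw [map_zsmul, smul_assoc])
    (fun a x y => by rw [map_add, smul_add])
    (fun n a x => by rw [map_zsmul, smul_comm]))

theorem red_tmul (s : X →ₗ[ℤ] V) (w : WittVector p 𝔽) (x : X) :
    red p s (w ⊗ₜ x) = WittVector.constantCoeff w • s x := rfl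

theorem red_smul (s : X →ₗ[ℤ] V) (w : WittVector p 𝔽) (z : WittVector p 𝔽 ⊗[ℤ] X) :
    red p s (w • z) = WittVector.constantCoeff w • red p s z := by
  induction z with
  | zero => simp
  | tmul w' m => rw [TensorProduct.smul_tmul', red_tmul, red_tmul, smul_eq_mul, map_mul, mul_smul]
  | add x y hx hy => rw [smul_add, map_add, map_add, smul_add, hx, hy]

theorem red_rho (s : X →ₗ[ℤ] V) (ρX : 𝔽ˣ →* Module.End ℤ X) (ρV : 𝔽ˣ →* Module.End 𝔽 V)
    (hs : ∀ a x, s (ρX a x) = ρV a (s x)) (a : 𝔽ˣ) (z : WittVector p 𝔽 ⊗[ℤ] X) :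
    red p s ((ρX a).baseChange (WittVector p 𝔽) z) = ρV a (red p s z) := by
  induction z with
  | zero => simp
  | tmul w' m => rw [LinearMap.baseChange_tmul, red_tmul, red_tmul, hs, map_smul]
  | add x y hx hy => rw [map_add, map_add, map_add, map_add, hx, hy]

theorem red_surj (s : X →ₗ[ℤ] V) {Ω : V} (h : Ω ∈ Submodule.span 𝔽 (Set.range s)) :
    ∃ z : WittVector p 𝔽 ⊗[ℤ] X, red p s z = Ω := by
  induction h using Submodule.span_induction with
  | mem x hx =>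
    obtain ⟨y, rfl⟩ := hx
    exact ⟨1 ⊗ₜ y, by rw [red_tmul, map_one, one_smul]⟩
  | zero => exact ⟨0, map_zero _⟩
  | add x y _ _ hx hy =>
    obtain ⟨u, rfl⟩ := hx
    obtain ⟨v, rfl⟩ := hy
    exact ⟨u + v, map_add _ _ _⟩
  | smul c x _ hx =>
    obtain ⟨u, rfl⟩ := hx
    refine ⟨WittVector.teichmuller p c • u, ?_⟩
    rw [red_smul]
    rfl

theorem red_proj [Fintype 𝔽] (k : ℕ) (s : X →ₗ[ℤ] V) (ρX : 𝔽ˣ →* Module.End ℤ X)
    (ρV : 𝔽ˣ →* Module.End 𝔽 V) (hs : ∀ a x, s (ρX a x) = ρV a (s x))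
    (z : WittVector p 𝔽 ⊗[ℤ] X) (hz : ∀ a : 𝔽ˣ, ρV a (red p s z) = (a : 𝔽) ^ k • red p s z) :
    red p s (proj p k ρX z) = - red p s z := by
  classical
  rw [proj_apply, map_sum]
  have h1 : ∀ a : 𝔽ˣ, red p s (chi p k a⁻¹ • (ρX a).baseChange (WittVector p 𝔽) z) =
      red p s z := by
    intro a
    rw [red_smul, red_rho s ρX ρV hs, hz, smul_smul, cc_chi, ← mul_pow, ← Units.val_mul,
      inv_mul_cancel, Units.val_one, one_pow, one_smul]
  rw [Finset.sum_congr rfl fun a _ => h1 a, Finset.sum_const, Finset.card_univ,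
    Fintype.card_units, ← Nat.cast_smul_eq_nsmul 𝔽, Nat.cast_sub Fintype.card_pos,
    FiniteField.cast_card_eq_zero, Nat.cast_one, zero_sub, neg_smul, one_smul]

end V

/-- The kernel of the base change of a map. -/
theorem ker_baseChange {M N : Type} [AddCommGroup M] [AddCommGroup N] (f : M →ₗ[ℤ] N)
    (z : WittVector p 𝔽 ⊗[ℤ] M) (hz : f.baseChange (WittVector p 𝔽) z = 0) :
    ∃ z' : WittVector p 𝔽 ⊗[ℤ] (LinearMap.ker f),
      (LinearMap.ker f).subtype.baseChange (WittVector p 𝔽) z' = z := by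
  have h := Module.Flat.lTensor_exact (WittVector p 𝔽) (LinearMap.exact_subtype_ker_map f)
  exact (h z).1 hz

end

/-- `S_witt`. -/
theorem t_witt : S_witt := by
  intro p _ 𝔽 _ _ _ k X C E V _ _ _ _ _ ρX ρC ρE ρV ε δ s ν hε hδ hs hν hex hν0 Ω₁ Ω₂ hΩ₁ hΩ₂
    he₁ he₂ hli
  classical
  set W := WittVector p 𝔽 with hW
  by_contra hcon
  push Not at hcon
  -- every eigenvector of `W ⊗ C` vanishes
  have hC : ∀ x : W ⊗[ℤ] C, (∀ a : 𝔽ˣ, (ρC a).baseChange W x = chi p k a • x) → x = 0 := by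
    intro x hx
    by_contra h0
    obtain ⟨a, ha⟩ := hcon x h0
    exact ha (hx a)
  -- an eigenvector in `W ⊗ E` over each `Ω`
  have key : ∀ Ω : V, Ω ∈ Submodule.span 𝔽 (Set.range s) →
      (∀ a : 𝔽ˣ, ρV a Ω = (a : 𝔽) ^ k • Ω) →
      ∃ η : W ⊗[ℤ] E, (∀ a : 𝔽ˣ, (ρE a).baseChange W η = chi p k a • η) ∧
        red p s (ε.baseChange W η) = Ω := by
    intro Ω hΩ he
    obtain ⟨z, hz⟩ := red_surj (p := p) s hΩ
    have h1 : red p s (proj p k ρX z) = - Ω := by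
      rw [red_proj k s ρX ρV hs z (by rw [hz]; exact he), hz]
    have h2 : δ.baseChange W (proj p k ρX z) = 0 := by
      apply hC
      intro a
      rw [proj_equi k ρX ρC δ hδ, rho_proj]
    obtain ⟨z', hz'⟩ := ker_baseChange δ _ h2
    -- lift to `W ⊗ E`
    have h3 : ∃ η₀ : W ⊗[ℤ] E, ε.baseChange W η₀ = proj p k ρX z := by
      rw [← hz']
      clear hz'
      induction z' with
      | zero => exact ⟨0, by simp⟩
      | tmul w m =>
        obtain ⟨e, he⟩ := hex m.1 m.2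
        exact ⟨w ⊗ₜ e, by rw [LinearMap.baseChange_tmul, LinearMap.baseChange_tmul, he]; rfl⟩
      | add x y hx hy =>
        obtain ⟨u, hu⟩ := hx
        obtain ⟨v, hv⟩ := hy
        exact ⟨u + v, by rw [map_add, map_add, hu, hv]⟩
    obtain ⟨η₀, hη₀⟩ := h3
    refine ⟨proj p k ρE η₀, fun a => rho_proj k ρE a η₀, ?_⟩
    rw [proj_equi k ρE ρX ε hε, hη₀, red_proj k s ρX ρV hs, h1, neg_neg]
    intro a
    rw [h1, map_neg, he, smul_neg]
  obtain ⟨η₁, h₁, r₁⟩ := key Ω₁ hΩ₁ he₁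
  obtain ⟨η₂, h₂, r₂⟩ := key Ω₂ hΩ₂ he₂
  -- the map `N : W ⊗ E → (𝔽ˣ → W)`
  let N : W ⊗[ℤ] E →ₗ[W] (𝔽ˣ → W) :=
    (TensorProduct.piScalarRight ℤ W W 𝔽ˣ).toLinearMap ∘ₗ ν.baseChange W
  have hN : ∀ (a : 𝔽ˣ) (η : W ⊗[ℤ] E) (b : 𝔽ˣ),
      N ((ρE a).baseChange W η) b = N η (b * a) := by
    intro a η b
    induction η with
    | zero => simp
    | tmul w e => simp [N, LinearMap.baseChange_tmul, hν]
    | add x y hx hy => rw [map_add, map_add, map_add, Pi.add_apply, Pi.add_apply, hx, hy]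
  have hN0 : ∀ η : W ⊗[ℤ] E, N η = 0 → red p s (ε.baseChange W η) = 0 := by
    intro η hη
    have h1 : ν.baseChange W η = 0 := by
      have := (TensorProduct.piScalarRight ℤ W W 𝔽ˣ).injective
      apply this
      rw [map_zero]
      exact hη
    obtain ⟨z', hz'⟩ := ker_baseChange ν _ h1
    rw [← hz']
    clear hz'
    induction z' with
    | zero => simp
    | tmul w m =>
      rw [LinearMap.baseChange_tmul, LinearMap.baseChange_tmul, red_tmul]
      have := hν0 m.1 m.2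
      change _ • s (ε m.1) = 0
      rw [this, smul_zero]
    | add x y hx hy => rw [map_add, map_add, map_add, hx, hy, add_zero]
  have heig : ∀ η : W ⊗[ℤ] E, (∀ a : 𝔽ˣ, (ρE a).baseChange W η = chi p k a • η) →
      ∀ a : 𝔽ˣ, N η a = chi p k a * N η 1 := by
    intro η hη a
    have h1 := hN a η 1
    rw [hη, map_smul, one_mul] at h1
    rw [← h1]
    rfl
  -- proportionality
  have hprop : ∀ (η η' : W ⊗[ℤ] E) (w : W),
      (∀ a : 𝔽ˣ, (ρE a).baseChange W η = chi p k a • η) →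
      (∀ a : 𝔽ˣ, (ρE a).baseChange W η' = chi p k a • η') → N η' 1 = w * N η 1 →
      red p s (ε.baseChange W η') = WittVector.constantCoeff w • red p s (ε.baseChange W η) := by
    intro η η' w hη hη' hw
    have h1 : N (η' - w • η) = 0 := by
      funext a
      rw [map_sub, map_smul, Pi.sub_apply, Pi.smul_apply, heig η' hη', heig η hη, hw]
      rw [smul_eq_mul, Pi.zero_apply]
      ring
    have h2 := hN0 _ h1
    rw [map_sub, map_sub, map_smul, red_smul, sub_eq_zero] at h2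
    exact h2
  rw [LinearIndependent.pair_iff] at hli
  rcases ValuationRing.dvd_total (N η₁ 1) (N η₂ 1) with ⟨w, hw⟩ | ⟨w, hw⟩
  · have h := hprop η₁ η₂ w h₁ h₂ (by rw [hw, mul_comm])
    rw [r₁, r₂] at h
    have := hli (WittVector.constantCoeff w) (-1) (by rw [← h, neg_smul, one_smul, add_neg_cancel])
    exact one_ne_zero (neg_eq_zero.1 this.2)
  · have h := hprop η₂ η₁ w h₂ h₁ (by rw [hw, mul_comm])
    rw [r₁, r₂] at h
    have := hli (-1) (WittVector.constantCoeff w) (by rw [← h, neg_smul, one_smul, neg_add_cancel])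
    exact one_ne_zero (neg_eq_zero.1 this.1)

end Pool.Agent.J4H92.GK
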